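import Pool.Agent.H65.ConnLQ

set_option autoImplicit false

open Pool.Agent.H65

theorem Pool.Agent.Results.MP_c1f45e_al.Counter.result :
    ∃ (n : ℕ) (G : SimpleGraph (Fin n)),
      (∀ a b c d : Fin n, G.Adj a b → G.Adj c d → a ≠ c → a ≠ d → b ≠ c → b ≠ d →
        G.Adj a c ∨ G.Adj a d ∨ G.Adj b c ∨ G.Adj b d) ∧
      ∀ (K : Type) [Field K], ¬ MonoDefs.HasLinearQuotients (MonoDefs.connIdeal K G 3) :=
  ⟨12, ConnLQ.G, ConnLQ.gapfree, fun K _ => ConnLQ.not_lq K⟩
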